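import Mathlib
import Pool.Agent.H32.Sieve

namespace Pool.Agent.Results.MP_58eafa_nt.Counter

open Pool.Agent.H32.Sieve

/-- the `m`-th prime, `p 1 = 2` -/
noncomputable def p (m : ℕ) : ℕ := Nat.nth Nat.Prime (m - 1)

theorem val {q m : ℕ} (hq : (q + 1).Prime) (h1 : q < 500)
    (h : blk (q + 1) (sieve q 30) 0 = m - 1) : p m = q + 1 := by
  unfold p
  rw [← h, ← count_eq (B := 30) (by omega), Nat.nth_count hq]

theorem result : ¬ ∀ n : ℕ, 5 < n → ∃ k : ℕ, 1 ≤ k ∧ k < n ∧ (2 * k + 1).Prime ∧
    (p (k * n) + k * n).Prime := by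
  intro H
  obtain ⟨k, h0, h1, h2, h3⟩ := H 10 (by norm_num)
  have v1 : p 10 = 28 + 1 := val (by norm_num) (by norm_num) (by decide +kernel)
  have v2 : p 20 = 70 + 1 := val (by norm_num) (by norm_num) (by decide +kernel)
  have v3 : p 30 = 112 + 1 := val (by norm_num) (by norm_num) (by decide +kernel)
  have v5 : p 50 = 228 + 1 := val (by norm_num) (by norm_num) (by decide +kernel)
  have v6 : p 60 = 280 + 1 := val (by norm_num) (by norm_num) (by decide +kernel)
  have v8 : p 80 = 408 + 1 := val (by norm_num) (by norm_num) (by decide +kernel)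
  have v9 : p 90 = 462 + 1 := val (by norm_num) (by norm_num) (by decide +kernel)
  interval_cases k
  · rw [show 1 * 10 = 10 from rfl, v1] at h3; norm_num at h3
  · rw [show 2 * 10 = 20 from rfl, v2] at h3; norm_num at h3
  · rw [show 3 * 10 = 30 from rfl, v3] at h3; norm_num at h3
  · norm_num at h2
  · rw [show 5 * 10 = 50 from rfl, v5] at h3; norm_num at h3
  · rw [show 6 * 10 = 60 from rfl, v6] at h3; norm_num at h3
  · norm_num at h2
  · rw [show 8 * 10 = 80 from rfl, v8] at h3; norm_num at h3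
  · rw [show 9 * 10 = 90 from rfl, v9] at h3; norm_num at h3

end Pool.Agent.Results.MP_58eafa_nt.Counter
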